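import Pool.Agent.Y76.NQ.Main
import Pool.Agent.Y76.NQ.Expl

set_option autoImplicit false

/-!
# Germs with algebraically independent coefficients are minimal; an explicit germ

Every germ over a field of characteristic zero whose coefficients are algebraically independent over
`ℚ` gives minimal quasimonomial valuations for all real weights `t ≥ 9` (for the weights `t ≤ T` only
the finitely many coefficients of the `(⌈T⌉ - 1)`-jet have to be algebraically independent), and
`x * ∑ exp (2 ^ (1 / 2 ^ (k + 1))) x ^ k` is such a germ over `ℂ`. There are no unspecified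
hypersurfaces to be avoided.
-/

namespace Pool.Agent.Results.MP_dd8059_ag.IndependentGerms

universe u

/-- `v_{ξ, t}(f) ≤ B`, where `ξ(x) = x * ∑ c_k x ^ k`: some monomial `x ^ i * Y ^ j` with
`i + t * j ≤ B` occurs in the expansion of `f(x, ξ(x) + Y, 1)`. -/
def ValLE {K : Type u} [Field K] (c : ℕ → K) (t : ℝ) (f : MvPolynomial (Fin 3) K) (B : ℝ) : Prop :=
  ∃ i j : ℕ,
    PowerSeries.coeff i
      ((MvPolynomial.aeval
        (![Polynomial.C PowerSeries.X,
           Polynomial.C (PowerSeries.X * PowerSeries.mk c) + Polynomial.X,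
           1] : Fin 3 → Polynomial (PowerSeries K)) f).coeff j) ≠ 0 ∧
    (i : ℝ) + t * (j : ℝ) ≤ B

/-- `μ̂(ξ, t) = √t`, in the strong form that `v_{ξ, t}(f) ≤ d √t` for all nonzero forms `f` of all
degrees `d`, while for every `ε > 0` and all large `d` some form of degree `d` has
`v_{ξ, t}(f) > (√t - ε) d`. -/
def Minimal {K : Type u} [Field K] (c : ℕ → K) (t : ℝ) : Prop :=
  (∀ (d : ℕ) (f : MvPolynomial (Fin 3) K), f.IsHomogeneous d → f ≠ 0 →
    ValLE c t f (d * Real.sqrt t)) ∧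
  (∀ ε : ℝ, 0 < ε → ∃ D : ℕ, ∀ d : ℕ, D ≤ d →
    ∃ f : MvPolynomial (Fin 3) K, f.IsHomogeneous d ∧ f ≠ 0 ∧
      ¬ ValLE c t f ((Real.sqrt t - ε) * d))

theorem result :
    (∀ (K : Type u) [Field K] [CharZero K] (c : ℕ → K) (T : ℝ),
      AlgebraicIndependent ℚ (fun k : {k : ℕ // (k : ℝ) + 1 < T} => c k) →
        ∀ t : ℝ, 9 ≤ t → t ≤ T → Minimal c t) ∧
    (∀ t : ℝ, 9 ≤ t →
      Minimal (fun k : ℕ => ((Real.exp ((2 : ℝ) ^ ((1 : ℝ) / 2 ^ (k + 1))) : ℝ) : ℂ)) t) := by
  have h1 : ∀ (K : Type u) [Field K] [CharZero K] (c : ℕ → K) (T : ℝ),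
      AlgebraicIndependent ℚ (fun k : {k : ℕ // (k : ℝ) + 1 < T} => c k) →
        ∀ t : ℝ, 9 ≤ t → t ≤ T → Minimal c t := by
    intro K _ _ c T hc t ht htT
    exact ⟨fun d f hf hf0 => Pool.Agent.Y76.NQ.le_of_indep c hc ht htT hf hf0,
      fun ε hε => Pool.Agent.Y76.NQ.lower_bound c (by linarith) hε⟩
  refine ⟨h1, fun t ht => ?_⟩
  refine ⟨fun d f hf hf0 => Pool.Agent.Y76.NQ.le_of_indep_all _ Pool.Agent.Y76.NQ.algInd_germ ht
    hf hf0, fun ε hε => Pool.Agent.Y76.NQ.lower_bound _ (by linarith) hε⟩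

end Pool.Agent.Results.MP_dd8059_ag.IndependentGerms
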